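import Pool.Agent.H97.NR.StmtsC

/-! Module LIS of project NR: the tables of different types are different. -/

set_option linter.unusedVariables false

namespace Pool.NR

namespace LIS

open Classical in
/-- A number that tells the type of a listed table. -/
noncomputable def code (T : Tab) : ℕ :=
  if T.M 0 0 1 = 1 then 9
  else if T.P 0 1 = 1 then (if T.P 1 2 = 1 then 10 else 8)
  else if T.P 2 3 = 1 then 6
  else if T.M 0 2 3 = 1 ∧ T.M 0 0 2 = 1 then 7
  else if T.P 0 2 = 1 then (if T.P 1 3 = 1 then 5 else 4)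
  else if T.P 0 3 = 1 then 2
  else if T.M 0 0 2 = 1 ∨ T.M 0 1 2 = 1 then 3
  else if T.M 0 0 3 = 1 ∨ T.M 0 1 3 = 1 then 1
  else 0

lemma step {A : Set Tab} (hA : A.Finite) (n : ℕ) (hn : ∀ T ∈ A, code T < n) {α : Type*} [Finite α]
    (f : α → Tab) (hf : Function.Injective f) (P : α → Prop) (hP : ∀ x, P x → code (f x) = n) :
    (A ∪ f '' {x | P x}).Finite ∧ (A ∪ f '' {x | P x}).ncard = A.ncard + cnt P ∧
      ∀ T ∈ A ∪ f '' {x | P x}, code T < n + 1 := by
  have hfin : (f '' {x | P x}).Finite := Set.toFinite _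
  refine ⟨hA.union hfin, ?_, ?_⟩
  · rw [Set.ncard_union_eq _ hA hfin, Set.ncard_image_of_injective _ hf]
    · rfl
    · rw [Set.disjoint_left]
      rintro T hT ⟨x, hx, rfl⟩
      have h1 := hn _ hT
      have h2 := hP x hx
      omega
  · rintro T (hT | ⟨x, hx, rfl⟩)
    · have := hn T hT
      omega
    · have := hP x hx
      omega

section

variable {p : ℕ} [Fact p.Prime]

lemma tab31_inj (π : Fin 3 → ZMod p) :
    Function.Injective (fun B : Fin 3 → Fin 3 → ZMod p => tab31 π B) := by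
  intro B B' h
  have hM := congrArg Tab.M h
  have v := ZMod.val_injective p
  funext i j
  apply v
  have := congrFun (congrFun (congrFun hM (Fin.castLE (by omega) i)) (Fin.castLE (by omega) j)) 3
  fin_cases i <;> fin_cases j <;> simpa [tab31] using this

lemma tab22_inj (π : Fin 2 → Fin 2 → ZMod p) :
    Function.Injective (fun B : Fin 2 → Fin 2 → Fin 2 → ZMod p => tab22 π B) := by
  intro B B' h
  have hM := congrArg Tab.M h
  have v := ZMod.val_injective p
  funext i j k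
  apply v
  have h2 := congrFun (congrFun (congrFun hM (Fin.castLE (by omega) j)) (Fin.castLE (by omega) k)) 2
  have h3 := congrFun (congrFun (congrFun hM (Fin.castLE (by omega) j)) (Fin.castLE (by omega) k)) 3
  fin_cases i <;> fin_cases j <;> fin_cases k <;> first
    | (simpa [tab22] using h2)
    | (simpa [tab22] using h3)

lemma one_val : (1 : ZMod p).val = 1 :=
  have : Fact (1 < p) := ⟨(Fact.out : p.Prime).one_lt⟩
  ZMod.val_one p

lemma pair_finite (p : ℕ) [Fact p.Prime] : Finite (ZMod (p ^ 2)) :=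
  have : NeZero (p ^ 2) := ⟨pow_ne_zero 2 (Fact.out : p.Prime).ne_zero⟩
  inferInstance

lemma tab4a_inj : Function.Injective
    (fun x : ZMod (p ^ 2) × ZMod p × ZMod p × ZMod p => tab4a x.1 x.2.1 x.2.2.1 x.2.2.2) := by
  have : NeZero (p ^ 2) := ⟨pow_ne_zero 2 (Fact.out : p.Prime).ne_zero⟩
  rintro ⟨L, b, c, d⟩ ⟨L', b', c', d'⟩ h
  have hM := congrArg Tab.M h
  have h1 := congrFun (congrFun (congrFun hM 0) 0) 2
  have h2 := congrFun (congrFun (congrFun hM 0) 1) 3
  have h3 := congrFun (congrFun (congrFun hM 1) 0) 3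
  have h4 := congrFun (congrFun (congrFun hM 1) 1) 3
  simp [tab4a] at h1 h2 h3 h4
  rw [Prod.mk.injEq, Prod.mk.injEq, Prod.mk.injEq]
  exact ⟨ZMod.val_injective _ h1, ZMod.val_injective _ h2, ZMod.val_injective _ h3,
    ZMod.val_injective _ h4⟩

lemma tab4b_inj : Function.Injective
    (fun x : ZMod p × ZMod p × ZMod p × ZMod p => tab4b x.1 x.2.1 x.2.2.1 x.2.2.2) := by
  rintro ⟨b, c, d, e⟩ ⟨b', c', d', e'⟩ h
  have hM := congrArg Tab.M h
  have hP := congrArg Tab.P h
  have h1 := congrFun (congrFun (congrFun hM 1) 0) 3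
  have h2 := congrFun (congrFun (congrFun hM 1) 1) 3
  have h3 := congrFun (congrFun hP 0) 3
  have h4 := congrFun (congrFun hP 1) 3
  simp [tab4b] at h1 h2 h3 h4
  rw [Prod.mk.injEq, Prod.mk.injEq, Prod.mk.injEq]
  exact ⟨ZMod.val_injective _ h1, ZMod.val_injective _ h2, ZMod.val_injective _ h3,
    ZMod.val_injective _ h4⟩

lemma tab5i_inj : Function.Injective
    (fun x : ZMod p × ZMod p × ZMod p => tab5i x.1 x.2.1 x.2.2) := by
  rintro ⟨a, b, c⟩ ⟨a', b', c'⟩ h
  have hM := congrArg Tab.M h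
  have hP := congrArg Tab.P h
  have h1 := congrFun (congrFun (congrFun hM 0) 2) 3
  have h2 := congrFun (congrFun (congrFun hM 0) 1) 3
  have h3 := congrFun (congrFun hP 1) 3
  simp [tab5i] at h1 h2 h3
  rw [Prod.mk.injEq, Prod.mk.injEq]
  exact ⟨ZMod.val_injective _ h1, ZMod.val_injective _ h2, ZMod.val_injective _ h3⟩

lemma tab5a_inj : Function.Injective
    (fun x : ZMod p × ZMod p × ZMod p => tab5a x.1 x.2.1 x.2.2) := by
  rintro ⟨a, b, c⟩ ⟨a', b', c'⟩ h
  have hP := congrArg Tab.P h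
  have h1 := congrFun (congrFun hP 0) 1
  have h2 := congrFun (congrFun hP 0) 2
  have h3 := congrFun (congrFun hP 0) 3
  simp [tab5a] at h1 h2 h3
  rw [Prod.mk.injEq, Prod.mk.injEq]
  exact ⟨ZMod.val_injective _ h1, ZMod.val_injective _ h2, ZMod.val_injective _ h3⟩

lemma tab5b_inj : Function.Injective
    (fun x : ZMod p × ZMod p => tab5b x.1 x.2) := by
  rintro ⟨a, b⟩ ⟨a', b'⟩ h
  have hM := congrArg Tab.M h
  have h1 := congrFun (congrFun (congrFun hM 0) 0) 2
  have h2 := congrFun (congrFun (congrFun hM 0) 0) 3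
  simp [tab5b] at h1 h2
  rw [Prod.mk.injEq]
  exact ⟨ZMod.val_injective _ h1, ZMod.val_injective _ h2⟩

lemma code0 : code (tab31 (p := p) 0 0) = 0 := by
  simp [code, tab31]

lemma code2a (B : Fin 3 → Fin 3 → ZMod p) (h : NF2a B) : code (tab31 0 B) = 1 := by
  have h1 := one_val (p := p)
  cases h with
  | alt => simp [code, tab31, h1]
  | s _ h => cases h <;> simp [code, tab31, h1]
  | m _ h => cases h <;> simp [code, tab31, h1]
  | e _ h => cases h <;> simp [code, tab31, h1]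
  | n _ h => cases h <;> simp [code, tab31, h1]

lemma code2b (B : Fin 3 → Fin 3 → ZMod p) (h : NF2b B) : code (tab31 pi31 B) = 2 := by
  have h1 := one_val (p := p)
  simp [code, tab31, pi31, h1]

lemma code3a (B : Fin 2 → Fin 2 → Fin 2 → ZMod p) (h : NF3a B) : code (tab22 0 B) = 3 := by
  have h1 := one_val (p := p)
  cases h with
  | c h => cases h <;> simp [code, tab22, T22, h1]
  | x h => cases h <;> simp [code, tab22, T22, h1]
  | h h => cases h <;> simp [code, tab22, T22, h1]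
  | n h => cases h <;> simp [code, tab22, T22, h1]

lemma code3b (B : Fin 2 → Fin 2 → Fin 2 → ZMod p) (h : NF3b B) :
    code (tab22 pi3b B) = 4 := by
  have h1 := one_val (p := p)
  simp [code, tab22, pi3b, h1]

lemma code3c (B : Fin 2 → Fin 2 → Fin 2 → ZMod p) (h : NF3c B) :
    code (tab22 pi3c B) = 5 := by
  have h1 := one_val (p := p)
  simp [code, tab22, pi3c, h1]

lemma code4a (x : ZMod (p ^ 2) × ZMod p × ZMod p × ZMod p) :
    code (tab4a x.1 x.2.1 x.2.2.1 x.2.2.2) = 6 := by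
  simp [code, tab4a]

lemma code4b (x : ZMod p × ZMod p × ZMod p × ZMod p) :
    code (tab4b x.1 x.2.1 x.2.2.1 x.2.2.2) = 7 := by
  simp [code, tab4b]

lemma code5i (x : ZMod p × ZMod p × ZMod p) :
    code (tab5i x.1 x.2.1 x.2.2) = 8 := by
  simp [code, tab5i]

lemma code5a (x : ZMod p × ZMod p × ZMod p) :
    code (tab5a x.1 x.2.1 x.2.2) = 9 := by
  simp [code, tab5a]

lemma code5b (x : ZMod p × ZMod p) : code (tab5b x.1 x.2) = 10 := by
  simp [code, tab5b]

end

end LIS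

open LIS in
/-- Module LIS. -/
theorem lis : LISStmt := by
  intro p _
  have := pair_finite p
  have s0 : ({tab31 (p := p) 0 0} : Set Tab).Finite := Set.finite_singleton _
  have c0 : ∀ T ∈ ({tab31 (p := p) 0 0} : Set Tab), code T < 1 := by
    rintro T rfl
    rw [code0]
    norm_num
  obtain ⟨f1, n1, c1⟩ := step s0 1 c0 _ (tab31_inj (p := p) 0) NF2a (fun x hx => code2a x hx)
  obtain ⟨f2, n2, c2⟩ := step f1 2 c1 _ (tab31_inj (p := p) pi31) NF2b
    (fun x hx => code2b x hx)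
  obtain ⟨f3, n3, c3⟩ := step f2 3 c2 _ (tab22_inj (p := p) 0) NF3a (fun x hx => code3a x hx)
  obtain ⟨f4, n4, c4⟩ := step f3 4 c3 _ (tab22_inj (p := p) pi3b) NF3b
    (fun x hx => code3b x hx)
  obtain ⟨f5, n5, c5⟩ := step f4 5 c4 _ (tab22_inj (p := p) pi3c) NF3c
    (fun x hx => code3c x hx)
  obtain ⟨f6, n6, c6⟩ := step f5 6 c5 _ (tab4a_inj (p := p))
    (fun x => NF4a x.1 x.2.1 x.2.2.1 x.2.2.2) (fun x _ => code4a x)
  obtain ⟨f7, n7, c7⟩ := step f6 7 c6 _ (tab4b_inj (p := p))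
    (fun x => NF4b x.1 x.2.1 x.2.2.1 x.2.2.2) (fun x _ => code4b x)
  obtain ⟨f8, n8, c8⟩ := step f7 8 c7 _ (tab5i_inj (p := p))
    (fun x => NF5i x.1 x.2.1 x.2.2) (fun x _ => code5i x)
  obtain ⟨f9, n9, c9⟩ := step f8 9 c8 _ (tab5a_inj (p := p))
    (fun x => NF5a x.1 x.2.1 x.2.2) (fun x _ => code5a x)
  obtain ⟨f10, n10, c10⟩ := step f9 10 c9 _ (tab5b_inj (p := p))
    (fun x => NF5b x.1 x.2) (fun x _ => code5b x)
  rw [n9, n8, n7, n6, n5, n4, n3, n2, n1, Set.ncard_singleton] at n10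
  rw [← n10, ← Nat.card_coe_set_eq]
  have key : ∀ (S : Set Tab), (∀ T, Listed p T ↔ T ∈ S) →
      Nat.card {T : Tab // Listed p T} = Nat.card S := by
    intro S hS
    exact Nat.card_congr (Equiv.subtypeEquivRight hS)
  apply key
  intro T
  constructor
  · intro h
    cases h with
    | null => exact .inl (.inl (.inl (.inl (.inl (.inl (.inl (.inl (.inl (.inl rfl)))))))))
    | l2a B h =>
      exact .inl (.inl (.inl (.inl (.inl (.inl (.inl (.inl (.inl (.inr ⟨B, h, rfl⟩)))))))))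
    | l2b B h => exact .inl (.inl (.inl (.inl (.inl (.inl (.inl (.inl (.inr ⟨B, h, rfl⟩))))))))
    | l3a B h => exact .inl (.inl (.inl (.inl (.inl (.inl (.inl (.inr ⟨B, h, rfl⟩)))))))
    | l3b B h => exact .inl (.inl (.inl (.inl (.inl (.inl (.inr ⟨B, h, rfl⟩))))))
    | l3c B h => exact .inl (.inl (.inl (.inl (.inl (.inr ⟨B, h, rfl⟩)))))
    | l4a L b c d h => exact .inl (.inl (.inl (.inl (.inr ⟨(L, b, c, d), h, rfl⟩))))
    | l4b b c d e h => exact .inl (.inl (.inl (.inr ⟨(b, c, d, e), h, rfl⟩)))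
    | l5i a b c h => exact .inl (.inl (.inr ⟨(a, b, c), h, rfl⟩))
    | l5a a b c h => exact .inl (.inr ⟨(a, b, c), h, rfl⟩)
    | l5b a b h => exact .inr ⟨(a, b), h, rfl⟩
  · rintro ((((((((((rfl | ⟨B, h, rfl⟩) | ⟨B, h, rfl⟩) | ⟨B, h, rfl⟩) | ⟨B, h, rfl⟩) |
      ⟨B, h, rfl⟩) | ⟨⟨L, b, c, d⟩, h, rfl⟩) | ⟨⟨L, b, c, d⟩, h, rfl⟩) | ⟨⟨b, c, d⟩, h, rfl⟩) |
      ⟨⟨b, c, d⟩, h, rfl⟩) | ⟨⟨c, d⟩, h, rfl⟩)
    · exact .null
    · exact .l2a B h
    · exact .l2b B h
    · exact .l3a B h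
    · exact .l3b B h
    · exact .l3c B h
    · exact .l4a L b c d h
    · exact .l4b L b c d h
    · exact .l5i b c d h
    · exact .l5a b c d h
    · exact .l5b c d h

end Pool.NR
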