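import Pool.Agent.H97.NR.StmtsC

/-! Module NUM of project NR: the number of listed tables. -/

set_option linter.unusedVariables false

namespace Pool.NR

/-- Module NUM. -/
theorem num (h1 : LISStmt) (h2 : N2AStmt) (h3 : M2TStmt) (h4 : L3TStmt) (h5 : K3SStmt)
    (h6 : J3TStmt) (h7 : H4AStmt) (h8 : H4BStmt) (h9 : H5IStmt) (h10 : H5AStmt)
    (h11 : H5BStmt) : NUMStmt := by
  intro p hp
  rw [h1 p, h2 p, h3 p, h4 p, h5 p, h6 p, h7 p, h8 p, h9 p, h10 p, h11 p]
  by_cases p2 : p = 2
  · simp [p2]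
  · by_cases p3 : p = 3
    · subst p3
      simp
    · simp only [p2, p3, if_false]
      ring

end Pool.NR
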